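import Mathlib

/-!
# Finite invertible automata and the groups they generate
-/

set_option autoImplicit false

namespace Pool.Agent.Y85.IsoP

/-- A finite invertible automaton with `m` states over an alphabet with `n` letters: the state `s`
reading the letter `x` goes to the state `next s x` and puts out the letter `out s x`; every
`out s` is a permutation of the alphabet. -/
structure Automaton (m n : ℕ) where
  next : Fin m → Fin n → Fin m
  out : Fin m → Equiv.Perm (Fin n)

namespace Automaton

variable {m n : ℕ} (A : Automaton m n)

/-- The action of a state on finite words: `s (x w) = out s x, t (w)` with `t = next s x`. -/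
def act : Fin m → List (Fin n) → List (Fin n)
  | _, [] => []
  | s, x :: w => A.out s x :: act (A.next s x) w

/-- The self-similar group of the automaton: the group of permutations of the set of finite words
generated by the states. -/
def group : Subgroup (Equiv.Perm (List (Fin n))) :=
  Subgroup.closure {g | ∃ s : Fin m, ∀ w, g w = A.act s w}

/-- The table of the automaton: one row for every state, and the row of the state `s` is the list
of the pairs (`next s x`, `out s x`), `x = 0, 1, ..., n - 1`. -/
def table : List (List (ℕ × ℕ)) :=
  List.ofFn fun s => List.ofFn fun x => ((A.next s x : ℕ), (A.out s x : ℕ))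

/-- The inverse action. -/
def inv : Fin m → List (Fin n) → List (Fin n)
  | _, [] => []
  | s, y :: w => (A.out s).symm y :: inv (A.next s ((A.out s).symm y)) w

theorem inv_act (s : Fin m) (w : List (Fin n)) : A.inv s (A.act s w) = w := by
  induction w generalizing s with
  | nil => rfl
  | cons x w ih => simp [act, inv, ih]

theorem act_inv (s : Fin m) (w : List (Fin n)) : A.act s (A.inv s w) = w := by
  induction w generalizing s with
  | nil => rfl
  | cons x w ih => simp [act, inv, ih]

/-- The permutation of a state. -/
def perm (s : Fin m) : Equiv.Perm (List (Fin n)) :=
  ⟨A.act s, A.inv s, A.inv_act s, A.act_inv s⟩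

theorem perm_apply (s : Fin m) (w : List (Fin n)) : A.perm s w = A.act s w := rfl

theorem perm_mem (s : Fin m) : A.perm s ∈ A.group :=
  Subgroup.subset_closure ⟨s, fun _ => rfl⟩

end Automaton

end Pool.Agent.Y85.IsoP
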