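import Pool.Agent.Y85.IsoP.Words

/-!
# The isomorphism problem for groups of finite automata is undecidable: the construction
-/

set_option autoImplicit false

namespace Pool.Agent.Y85.IsoP

open Equiv Pool.Agent.Helper599 Pool.Agent.Helper599.PP Pool.Agent.Helper599.Ray
open Pool.Agent.Helper599.Mod Pool.Agent.Helper599.Core Pool.Agent.Helper599.Asm

theorem desc_unique {g g' : Perm R} {M : GG} {v : Z4} {e : ZMod 2} (h : Desc g M v e)
    (h' : Desc g' M v e) : g = g' := by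
  have h1 := h.mul h'.inv
  have e1 : ac M (-ac M⁻¹ v) + v = 0 := by
    rw [ac_neg, ← ac_mul, mul_inv_cancel, ac_one, neg_add_cancel]
  rw [mul_inv_cancel, e1, CharTwo.add_self_eq_zero] at h1
  have h2 := h1.eq_one
  rwa [mul_inv_eq_one] at h2

/-- The translations in the group. -/
noncomputable def TS (D : Data) : AddSubgroup Z4 where
  carrier := {v | ∃ g ∈ Cl D, Desc g 1 v 0}
  zero_mem' := ⟨1, one_mem _, Desc.one⟩
  add_mem' := by
    rintro v w ⟨g, hg, h1⟩ ⟨g', hg', h2⟩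
    refine ⟨g' * g, mul_mem hg' hg, ?_⟩
    have h3 := h2.mul h1
    rwa [one_mul, ac_one, add_zero] at h3
  neg_mem' := by
    rintro v ⟨g, hg, h1⟩
    refine ⟨g⁻¹, inv_mem hg, ?_⟩
    have h2 := h1.inv
    rwa [inv_one, ac_one] at h2

theorem mem_TS (D : Data) {b : NM} (hb : Bd D.K b) : tz b ∈ TS D := by
  have hq : code D.K D.i0 b < D.n := code_lt hb D.hi0
  have hσ := D.is_sP hq
  refine ⟨D.sP _, Subgroup.subset_closure ⟨_, hq, hσ⟩, ?_⟩
  have h3 := D.desc D.hi0 hb hσ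
  rw [MM0] at h3
  have : D.wi D.i0 = 0 := by
    unfold Data.wi
    rw [if_neg D.hne]
  rw [this] at h3
  exact h3

theorem TS_top (D : Data) (v : Z4) : v ∈ TS D := by
  have hK := D.hK
  have b1 : Bd D.K ((1, 0), (0, 0)) := by simp only [Bd]; omega
  have b2 : Bd D.K ((0, 1), (0, 0)) := by simp only [Bd]; omega
  have b3 : Bd D.K ((0, 0), (1, 0)) := by simp only [Bd]; omega
  have b4 : Bd D.K ((0, 0), (0, 1)) := by simp only [Bd]; omega
  have e : v = v.1.1 • tz ((1, 0), (0, 0)) + v.1.2 • tz ((0, 1), (0, 0)) +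
      v.2.1 • tz ((0, 0), (1, 0)) + v.2.2 • tz ((0, 0), (0, 1)) := by
    obtain ⟨⟨a, b⟩, ⟨c, d⟩⟩ := v
    simp [tz]
  rw [e]
  exact (TS D).add_mem ((TS D).add_mem ((TS D).add_mem ((TS D).zsmul_mem (mem_TS D b1) _)
    ((TS D).zsmul_mem (mem_TS D b2) _)) ((TS D).zsmul_mem (mem_TS D b3) _))
    ((TS D).zsmul_mem (mem_TS D b4) _)

section

variable {Q : Type} [Finite Q] (M : Sys Q Bool) (q0 : Q)

theorem mtN_LL (N : ℕ) : mtN M q0 N (LL M) = dm := by
  unfold mtN
  have h1 : LL M ≠ ig M := (eN M .g).2.ne'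
  rw [if_neg h1, List.getD_eq_default]
  simp [lst]

theorem ap_one (p : ℤ × ℤ) : ap ((1, 0), (0, 1)) p = p := by
  simp [ap]

/-- The data of the second automaton: the weight is moved to a new name. -/
noncomputable def DB (N : ℕ) : Data where
  K := KK M q0 N
  L := LL M + 1
  ig := LL M
  i0 := i0 M
  mt := mtN M q0 N
  MM i := if h : i < LL M then RR M q0 N (FreeGroup.of ((eN M).symm ⟨i, h⟩)) else 1
  hK := by unfold KK; omega
  hi0 := Nat.lt_succ_of_lt (eN M .id).2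
  hig := Nat.lt_succ_self _
  hne := (eN M .id).2.ne
  mt0 := (DA M q0 N).mt0
  h1 i hi p := by
    by_cases h : i < LL M
    · exact (DA M q0 N).h1 i h p
    · have h2 : i = LL M := by omega
      rw [dif_neg h, h2, mtN_LL]
      exact ap_one p
  h2 i hi p := by
    by_cases h : i < LL M
    · exact (DA M q0 N).h2 i h p
    · have h2 : i = LL M := by omega
      rw [dif_neg h, h2, mtN_LL]
      exact ap_one p
  hs i hi := by
    by_cases h : i < LL M
    · exact (DA M q0 N).hs i h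
    · have h2 : i = LL M := by omega
      have h3 : 2 ≤ KK M q0 N := by unfold KK; omega
      rw [h2, mtN_LL]
      simp only [dm]
      omega

theorem MM_B (N : ℕ) (a : Nm Q M.B) : (DB M q0 N).MM (eN M a) = RR M q0 N (FreeGroup.of a) :=
  MM_eN M q0 N a

theorem MM_BL (N : ℕ) : (DB M q0 N).MM (LL M) = 1 := by
  change (if h : LL M < LL M then RR M q0 N (FreeGroup.of ((eN M).symm ⟨LL M, h⟩)) else 1) = 1
  rw [dif_neg (lt_irrefl _)]

theorem wi_B (N : ℕ) (a : Nm Q M.B) : (DB M q0 N).wi (eN M a) = 0 := by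
  unfold Data.wi
  exact if_neg (eN M a).2.ne

theorem wi_BL (N : ℕ) : (DB M q0 N).wi (LL M) = 1 := if_pos rfl

/-- All elements described by the free group, the translations and the weights. -/
def SS (N : ℕ) : Set (Perm R) := {g | ∃ u v e, Desc g (RR M q0 N u) v e}

theorem A_sub (N : ℕ) {g : Perm R} (hg : g ∈ Cl (DA M q0 N)) : g ∈ SS M q0 N := by
  obtain ⟨u, v, h⟩ := exists_desc M q0 N g hg
  exact ⟨u, v, _, h⟩

theorem B_sub (N : ℕ) {g : Perm R} (hg : g ∈ Cl (DB M q0 N)) : g ∈ SS M q0 N := by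
  unfold Cl at hg
  induction hg using Subgroup.closure_induction with
  | mem σ h =>
    obtain ⟨q, hq, hσ⟩ := h
    have h1 := code_idx_vec (DB M q0 N).K q
    have h2 : idx (DB M q0 N).K q < (DB M q0 N).L := idx_lt hq
    have hK := (DB M q0 N).hK
    rw [← h1] at hσ
    have h3 := (DB M q0 N).desc h2 (bd_vec (by omega) q) hσ
    by_cases h5 : idx (DB M q0 N).K q < LL M
    · have h4 : ∃ a, (eN M a : ℕ) = idx (DB M q0 N).K q :=
        ⟨(eN M).symm ⟨idx (DB M q0 N).K q, h5⟩, by simp⟩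
      obtain ⟨a, ha⟩ := h4
      rw [← ha, MM_B] at h3
      exact ⟨FreeGroup.of a, _, _, h3⟩
    · have h6 : idx (DB M q0 N).K q = LL M := by
        have : (DB M q0 N).L = LL M + 1 := rfl
        omega
      rw [h6, MM_BL] at h3
      exact ⟨1, tz (vec (DB M q0 N).K q), (DB M q0 N).wi (LL M), by rw [map_one]; exact h3⟩
  | one => exact ⟨1, 0, 0, by simpa using Desc.one⟩
  | mul g h _ _ ih1 ih2 =>
    obtain ⟨u, v, e, h1⟩ := ih1
    obtain ⟨u', v', e', h2⟩ := ih2
    refine ⟨u * u', ac (RR M q0 N u) v' + v, e + e', ?_⟩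
    rw [map_mul]
    exact h1.mul h2
  | inv g _ ih =>
    obtain ⟨u, v, e, h1⟩ := ih
    refine ⟨u⁻¹, - ac (RR M q0 N u)⁻¹ v, e, ?_⟩
    rw [map_inv]
    exact h1.inv

theorem zmod_flip : ∀ a b : ZMod 2, a ≠ b → 1 + b = a := by decide

/-- A criterion for containing everything. -/
theorem sub_of (N : ℕ) (D : Data) (h1 : ∃ d ∈ Cl D, Desc d 1 0 1)
    (h2 : ∀ u, ∃ g ∈ Cl D, ∃ e, Desc g (RR M q0 N u) 0 e) {g : Perm R} (hg : g ∈ SS M q0 N) :
    g ∈ Cl D := by
  obtain ⟨u, v, e, hg⟩ := hg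
  obtain ⟨d, hd, h1⟩ := h1
  obtain ⟨k, hk, e', h2⟩ := h2 u
  obtain ⟨t, ht, h3⟩ := TS_top D v
  have h4 := h3.mul h2
  rw [one_mul, ac_zero, zero_add, zero_add] at h4
  by_cases h : e = e'
  · subst h
    rw [desc_unique hg h4]
    exact mul_mem ht hk
  · have h5 := h1.mul h4
    rw [one_mul, ac_one, add_zero] at h5
    have h6 : 1 + e' = e := zmod_flip e e' h
    rw [h6] at h5
    rw [desc_unique hg h5]
    exact mul_mem hd (mul_mem ht hk)

theorem flip_B (N : ℕ) : ∃ d ∈ Cl (DB M q0 N), Desc d 1 0 1 := by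
  have hq : code (DB M q0 N).K (LL M) ((0, 0), (0, 0)) < (DB M q0 N).n :=
    code_lt (DB M q0 N).bd_zero (Nat.lt_succ_self _)
  have hσ := (DB M q0 N).is_sP hq
  refine ⟨(DB M q0 N).sP _, Subgroup.subset_closure ⟨_, hq, hσ⟩, ?_⟩
  have h3 := (DB M q0 N).desc (Nat.lt_succ_self _) (DB M q0 N).bd_zero hσ
  rw [MM_BL, wi_BL] at h3
  exact h3

theorem elt_B (N : ℕ) (u : FreeGroup (Nm Q M.B)) :
    ∃ g ∈ Cl (DB M q0 N), ∃ e, Desc g (RR M q0 N u) 0 e := by
  have h0 : tz ((0, 0), (0, 0)) = 0 := rfl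
  induction u using FreeGroup.induction_on with
  | C1 => exact ⟨1, one_mem _, 0, by simpa using Desc.one⟩
  | of a =>
    have hL : (eN M a : ℕ) < (DB M q0 N).L := Nat.lt_succ_of_lt (eN M a).2
    have hq : code (DB M q0 N).K (eN M a) ((0, 0), (0, 0)) < (DB M q0 N).n :=
      code_lt (DB M q0 N).bd_zero hL
    have hσ := (DB M q0 N).is_sP hq
    refine ⟨(DB M q0 N).sP _, Subgroup.subset_closure ⟨_, hq, hσ⟩, 0, ?_⟩
    have h3 := (DB M q0 N).desc hL (DB M q0 N).bd_zero hσ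
    rw [MM_B, wi_B, h0] at h3
    exact h3
  | inv_of a ih =>
    obtain ⟨g, hg, e, h1⟩ := ih
    refine ⟨g⁻¹, inv_mem hg, e, ?_⟩
    have h2 := h1.inv
    rw [ac_zero, neg_zero] at h2
    rw [map_inv]
    exact h2
  | mul a b h1 h2 =>
    obtain ⟨g, hg, e, h1⟩ := h1
    obtain ⟨h, hh, e', h2⟩ := h2
    refine ⟨g * h, mul_mem hg hh, e + e', ?_⟩
    have h3 := h1.mul h2
    rw [ac_zero, add_zero] at h3
    rw [map_mul]
    exact h3

theorem flip_A (N : ℕ) (h : Reach M (some q0, fun j => (Source.ini N j : ℤ))) :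
    ∃ d ∈ Cl (DA M q0 N), Desc d 1 0 1 := by
  obtain ⟨u, h1, h2, h3⟩ := exists_of_reach M q0 N h
  obtain ⟨g, hg, h4⟩ := exists_elt M q0 N u
  have h5 : RR M q0 N u = 1 := by
    simp [Asm.RR, h1, h2]
  rw [h5, h3, toAdd_ofAdd] at h4
  exact ⟨g, hg, h4⟩

/-- In the halting case the two groups are equal. -/
theorem cl_eq (N : ℕ) (h : Reach M (some q0, fun j => (Source.ini N j : ℤ))) :
    Cl (DA M q0 N) = Cl (DB M q0 N) := by
  apply le_antisymm
  · intro g hg
    exact sub_of M q0 N _ (flip_B M q0 N) (elt_B M q0 N) (A_sub M q0 N hg)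
  · intro g hg
    refine sub_of M q0 N _ (flip_A M q0 N h) ?_ (B_sub M q0 N hg)
    intro u
    obtain ⟨g, hg, h1⟩ := exists_elt M q0 N u
    exact ⟨g, hg, _, h1⟩

theorem Desc_pow {g : Perm R} {M : GG} {v : Z4} {e : ZMod 2} (h : Desc g M v e) (k : ℕ) :
    ∃ w, Desc (g ^ k) (M ^ k) w (k • e) := by
  induction k with
  | zero => exact ⟨0, by simpa using Desc.one⟩
  | succ k ih =>
    obtain ⟨w, hw⟩ := ih
    have h3 := hw.mul h
    rw [← pow_succ, ← pow_succ, ← succ_nsmul] at h3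
    exact ⟨_, h3⟩

theorem Desc_pow_one {g : Perm R} {v : Z4} (h : Desc g 1 v 0) (k : ℕ) :
    Desc (g ^ k) 1 (k • v) 0 := by
  induction k with
  | zero => simpa using Desc.one
  | succ k ih =>
    have h1 := ih.mul h
    rw [one_mul, ac_one, add_zero, add_comm] at h1
    rw [pow_succ, succ_nsmul]
    exact h1

theorem z4_smul {k : ℕ} (hk : 0 < k) {v : Z4} (h : k • v = 0) : v = 0 := by
  have hk' : (k : ℤ) ≠ 0 := by exact_mod_cast hk.ne'
  have key : ∀ x : ℤ, k • x = 0 → x = 0 := by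
    intro x hx
    rw [nsmul_eq_mul] at hx
    exact (mul_eq_zero.1 hx).resolve_left hk'
  exact Prod.ext
    (Prod.ext (key _ (congrArg (fun z : Z4 => z.1.1) h)) (key _ (congrArg (fun z : Z4 => z.1.2) h)))
    (Prod.ext (key _ (congrArg (fun z : Z4 => z.2.1) h)) (key _ (congrArg (fun z : Z4 => z.2.2) h)))

/-- In the other case the first group is torsion free. -/
theorem no_tors (hab : ∀ q r, M.nxt q r ≠ none → ∀ j, M.b q r j < M.a q r j) (N : ℕ)
    (hn : ¬ Reach M (some q0, fun j => (Source.ini N j : ℤ))) (g : Perm R)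
    (hg : g ∈ Cl (DA M q0 N)) (k : ℕ) (hk : 0 < k) (h2 : g ^ k = 1) : g = 1 := by
  obtain ⟨u, v, h1⟩ := exists_desc M q0 N g hg
  obtain ⟨w, h3⟩ := Desc_pow h1 k
  rw [h2] at h3
  obtain ⟨k1, _⟩ := gen_xi.eq h3 rfl
  have sq : ∀ x : FreeGroup (Gn Q M.B), rep M x ^ k = 1 → x = 1 := by
    intro x hx
    rw [← map_pow] at hx
    have h4 : x ^ k = 1 := rep_injective M (by rw [hx, map_one])
    exact (pow_eq_one_iff_left hk.ne').1 h4
  have h4 : f1 M q0 N u = 1 := sq _ (congrArg Prod.fst k1)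
  have h5 : f2 M q0 N u = 1 := sq _ (congrArg Prod.snd k1)
  have h6 := wt_eq_one M hab q0 N hn u h4 h5
  have h7 : RR M q0 N u = 1 := by
    simp [Asm.RR, h4, h5]
  rw [h7, h6] at h1
  have h8 := Desc_pow_one h1 k
  rw [h2] at h8
  obtain ⟨_, k2⟩ := gen_xi.eq h8 rfl
  rw [z4_smul hk k2] at h1
  exact h1.eq_one

/-- The first group. -/
noncomputable def GA (N : ℕ) : Automaton (DA M q0 N).n 18 := autD (DA M q0 N)

/-- The second group. -/
noncomputable def GB (N : ℕ) : Automaton (DB M q0 N).n 18 := autD (DB M q0 N)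

theorem tors_free (hab : ∀ q r, M.nxt q r ≠ none → ∀ j, M.b q r j < M.a q r j) (N : ℕ)
    (hn : ¬ Reach M (some q0, fun j => (Source.ini N j : ℤ))) :
    ∀ g ∈ (GA M q0 N).group, ∀ k : ℕ, 0 < k → g ^ k = 1 → g = 1 := by
  intro g hg k hk h
  obtain ⟨r, hr, hc⟩ := exists_ray (DA M q0 N) hg
  have hp : ∀ k : ℕ, Comp (g ^ k) (r ^ k) := by
    intro k
    induction k with
    | zero => exact Comp.one
    | succ k ih =>
      rw [pow_succ, pow_succ]
      exact ih.mul hc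
  have h5 := hp k
  rw [h] at h5
  have h6 : r ^ k = 1 := h5.right Comp.one
  have h7 := no_tors M q0 hab N hn r hr k hk h6
  rw [h7] at hc
  exact hc.left Comp.one

theorem order_two (N : ℕ) : ∃ g ∈ (GB M q0 N).group, g ≠ 1 ∧ g ^ 2 = 1 := by
  obtain ⟨d, hd, h1⟩ := flip_B M q0 N
  have hd1 : d ≠ 1 := by
    rintro rfl
    have h7 := h1.flip (fun _ => 16) 0 (fun j hj => by omega) (by simp)
    have h8 : (1 : ZMod 2) ≠ 0 := by decide
    simp [fl, h8] at h7
  have hd2 : d * d = 1 := by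
    have h2 := h1.mul h1
    rw [mul_one, ac_zero, add_zero, CharTwo.add_self_eq_zero] at h2
    exact h2.eq_one
  obtain ⟨g, hg, hc⟩ := exists_word (DB M q0 N) hd
  refine ⟨g, hg, ?_, ?_⟩
  · rintro rfl
    exact hd1 (hc.right Comp.one)
  · rw [sq]
    have h3 := hc.mul hc
    rw [hd2] at h3
    exact h3.left Comp.one

theorem group_eq_of_reach (N : ℕ) (h : Reach M (some q0, fun j => (Source.ini N j : ℤ))) :
    (GA M q0 N).group = (GB M q0 N).group :=
  group_eq (cl_eq M q0 N h)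

/-! ### computability -/

theorem p_otB : Primrec (fun p : ℕ × ℕ × ℕ => ot (KK M q0 p.1) (LL M) (mtN M q0 p.1) p.2.1 p.2.2) := by
  have hK : Primrec (fun p : ℕ × ℕ × ℕ => KK M q0 p.1) := (p_KK M q0).comp Primrec.fst
  have hs : Primrec (fun p : ℕ × ℕ × ℕ => p.2.1) := Primrec.fst.comp Primrec.snd
  have hx : Primrec (fun p : ℕ × ℕ × ℕ => p.2.2) := Primrec.snd.comp Primrec.snd
  have hi := p_idx hK hs
  have hm : Primrec (fun p : ℕ × ℕ × ℕ => mtN M q0 p.1 (idx (KK M q0 p.1) p.2.1)) :=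
    (p_mtN M q0).comp (Primrec.pair Primrec.fst hi)
  unfold ot
  refine Primrec.ite (Primrec.nat_lt.comp hx (Primrec.const 16)) ?_ ?_
  · exact p_lt (p_nv hm (p_dg hx) (p_vec hK hs))
  · refine Primrec.ite (Primrec.eq.comp hi (Primrec.const _)) ?_ hx
    exact Primrec.nat_sub.comp (Primrec.const 33) hx

theorem p_nB : Primrec (fun N => (DB M q0 N).n) := by
  have e : ∀ N, (DB M q0 N).n =
      (LL M + 1) * (KK M q0 N * (KK M q0 N * (KK M q0 N * KK M q0 N))) := by
    intro N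
    change (LL M + 1) * KK M q0 N ^ 4 = _
    ring
  refine (p_mul (Primrec.const (LL M + 1)) (p_mul (p_KK M q0) (p_mul (p_KK M q0)
    (p_mul (p_KK M q0) (p_KK M q0))))).of_eq ?_
  intro N
  exact (e N).symm

/-- a row entry -/
noncomputable def entB (p : (ℕ × ℕ) × ℕ) : ℕ × ℕ :=
  (Ray.nx (KK M q0 p.1.1) (i0 M) (mtN M q0 p.1.1) p.1.2 p.2,
    ot (KK M q0 p.1.1) (LL M) (mtN M q0 p.1.1) p.1.2 p.2)

theorem p_entB : Primrec (entB M q0) := by
  have hp : Primrec (fun p : (ℕ × ℕ) × ℕ => (p.1.1, p.1.2, p.2)) :=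
    Primrec.pair (Primrec.fst.comp Primrec.fst) (Primrec.pair (Primrec.snd.comp Primrec.fst)
      Primrec.snd)
  have h1 := (p_nx M q0).comp hp
  have h2 := (p_otB M q0).comp hp
  simp only at h1 h2
  have h3 := Primrec.pair h1 h2
  exact h3

/-- a row -/
noncomputable def rwB (k : ℕ) (p : ℕ × ℕ) : List (ℕ × ℕ) :=
  (List.range k).map (fun x => entB M q0 (p, x))

theorem p_rwB (k : ℕ) : Primrec (rwB M q0 k) := by
  have h1 : Primrec₂ (fun (p : ℕ × ℕ) (x : ℕ) => entB M q0 (p, x)) :=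
    ((p_entB M q0).comp (Primrec.pair Primrec.fst Primrec.snd)).to₂
  exact Primrec.list_map (Primrec.const _) h1

theorem T_eqB (N : ℕ) : (DB M q0 N).T =
    (List.range (DB M q0 N).n).map (fun s => rwB M q0 18 (N, s)) := by
  have e : (DB M q0 N).T = table (KK M q0 N) (LL M + 1) (LL M) (i0 M) (mtN M q0 N) := rfl
  have e2 : (DB M q0 N).n = (LL M + 1) * KK M q0 N ^ 4 := rfl
  rw [e, e2, table]
  rfl

/-- The tables are primitive recursive. -/
theorem p_TB : Primrec (fun N => (DB M q0 N).T) := by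
  refine Primrec.of_eq ?_ (fun N => (T_eqB M q0 N).symm)
  have h1 : Primrec₂ (fun (N : ℕ) (s : ℕ) => rwB M q0 18 (N, s)) :=
    ((p_rwB M q0 18).comp (Primrec.pair Primrec.fst Primrec.snd)).to₂
  exact Primrec.list_map (Primrec.list_range.comp (p_nB M q0)) h1

end

/-- The main theorem. -/
theorem main : ¬ ∃ f : List (List (ℕ × ℕ)) × List (List (ℕ × ℕ)) → Bool, Computable f ∧
    ∀ (m m' : ℕ) (A : Automaton m 18) (B : Automaton m' 18), 1 ≤ m → 1 ≤ m' →
      (A.group = B.group → f (A.table, B.table) = true) ∧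
      ((∀ g ∈ A.group, ∀ k : ℕ, 0 < k → g ^ k = 1 → g = 1) →
        (∃ g ∈ B.group, g ≠ 1 ∧ g ^ 2 = 1) → f (A.table, B.table) = false) := by
  rintro ⟨f, hf, hcor⟩
  obtain ⟨Q, hQ, M, q0, N, hB, hab, hN, hnc⟩ := Source.exists_sys2
  apply hnc
  have key : ∀ n : ℕ, M.Halts (some q0) (Source.ini (N n)) ↔
      f ((DA M q0 (N n)).T, (DB M q0 (N n)).T) = true := by
    intro n
    rw [halts_iff_reach M hB]
    have n1 : 1 ≤ (DA M q0 (N n)).n := by
      have := code_lt (DA M q0 (N n)).bd_zero (DA M q0 (N n)).hi0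
      exact Nat.succ_le_of_lt (lt_of_le_of_lt (Nat.zero_le _) this)
    have n2 : 1 ≤ (DB M q0 (N n)).n := by
      have := code_lt (DB M q0 (N n)).bd_zero (DB M q0 (N n)).hi0
      exact Nat.succ_le_of_lt (lt_of_le_of_lt (Nat.zero_le _) this)
    obtain ⟨h1, h2⟩ := hcor _ _ (GA M q0 (N n)) (GB M q0 (N n)) n1 n2
    rw [show (GA M q0 (N n)).table = (DA M q0 (N n)).T from table_autD _,
      show (GB M q0 (N n)).table = (DB M q0 (N n)).T from table_autD _] at h1 h2
    constructor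
    · intro h
      exact h1 (group_eq_of_reach M q0 (N n) h)
    · intro h
      by_contra hcon
      rw [h2 (tors_free M q0 hab (N n) hcon) (order_two M q0 (N n))] at h
      exact Bool.false_ne_true h
  have hc : Computable (fun n => f ((DA M q0 (N n)).T, (DB M q0 (N n)).T)) := by
    have h1 : Computable (fun n : ℕ => ((DA M q0 n).T, (DB M q0 n).T)) :=
      (Primrec.pair (p_T M q0) (p_TB M q0)).to_comp
    exact hf.comp (h1.comp hN)
  refine ComputablePred.computable_iff.2 ⟨_, hc, ?_⟩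
  funext n
  rw [eq_iff_iff, key n]

/-- A group with an element of order two is not isomorphic to a torsion free group. -/
theorem not_iso {n n' : ℕ} (G : Subgroup (Perm (List (Fin n))))
    (H : Subgroup (Perm (List (Fin n'))))
    (h1 : ∀ g ∈ G, ∀ k : ℕ, 0 < k → g ^ k = 1 → g = 1) (h2 : ∃ g ∈ H, g ≠ 1 ∧ g ^ 2 = 1) :
    ¬ Nonempty (G ≃* H) := by
  rintro ⟨e⟩
  obtain ⟨g, hg, hg1, hg2⟩ := h2
  apply hg1
  have hx2 : (⟨g, hg⟩ : H) ^ 2 = 1 := Subtype.ext hg2
  have h3 : (e.symm ⟨g, hg⟩) ^ 2 = 1 := by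
    rw [← map_pow, hx2, map_one]
  have h4 : e.symm ⟨g, hg⟩ = 1 := Subtype.ext
    (h1 _ (e.symm ⟨g, hg⟩).2 2 (by norm_num) (congrArg Subtype.val h3))
  have h5 : (⟨g, hg⟩ : H) = 1 := by
    rw [← e.apply_symm_apply ⟨g, hg⟩, h4, map_one]
  exact congrArg Subtype.val h5

end Pool.Agent.Y85.IsoP
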