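import Pool.Agent.Y85.IsoP.Defs
import Pool.Agent.Helper599.Prim
import Pool.Agent.Helper599.Source2

/-!
# The groups of the tables of the library `Helper599` on words and on rays
-/

set_option autoImplicit false

namespace Pool.Agent.Y85.IsoP

open Equiv Pool.Agent.Helper599 Pool.Agent.Helper599.PP Pool.Agent.Helper599.Ray
open Pool.Agent.Helper599.Mod Pool.Agent.Helper599.Core Pool.Agent.Helper599.Asm

/-- initial segment of a ray -/
def pre (η : R) (k : ℕ) : List (Fin 18) := List.ofFn (fun i : Fin k => η i)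

theorem pre_inj {η ζ : R} (h : ∀ k, pre η k = pre ζ k) : η = ζ := by
  funext i
  have h1 := h (i + 1)
  have h2 := congrFun (List.ofFn_injective h1) ⟨i, Nat.lt_succ_self i⟩
  exact h2

theorem exists_pre (w : List (Fin 18)) : ∃ η : R, pre η w.length = w := by
  refine ⟨fun i => w.getD i 0, ?_⟩
  unfold pre
  apply List.ext_getElem
  · simp
  · intro i h1 h2
    simp

/-- The permutation `g` of words and the permutation `h` of rays belong together. -/
def Comp (g : Perm (List (Fin 18))) (h : Perm R) : Prop := ∀ (η : R) (k : ℕ), g (pre η k) = pre (h η) k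

theorem Comp.one : Comp 1 1 := fun _ _ => rfl

theorem Comp.mul {g g' : Perm (List (Fin 18))} {h h' : Perm R} (h1 : Comp g h) (h2 : Comp g' h') :
    Comp (g * g') (h * h') := by
  intro η k
  rw [Perm.mul_apply, Perm.mul_apply, h2, h1]

theorem Comp.inv {g : Perm (List (Fin 18))} {h : Perm R} (h1 : Comp g h) : Comp g⁻¹ h⁻¹ := by
  intro η k
  rw [Perm.inv_eq_iff_eq, h1]
  congr 1
  exact (h.apply_symm_apply η).symm

theorem Comp.left {g g' : Perm (List (Fin 18))} {h : Perm R} (h1 : Comp g h) (h2 : Comp g' h) :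
    g = g' := by
  ext w : 1
  obtain ⟨η, hη⟩ := exists_pre w
  rw [← hη, h1, h2]

theorem Comp.right {g : Perm (List (Fin 18))} {h h' : Perm R} (h1 : Comp g h) (h2 : Comp g h') :
    h = h' := by
  ext η : 1
  apply pre_inj
  intro k
  rw [← h1, h2]

/-- The automaton of the data. -/
noncomputable def autD (D : Data) : Automaton D.n 18 where
  next s x := ⟨D.N s x, D.N_lt s.2 x⟩
  out s := D.oP s

theorem stt_shift (D : Data) (q : ℕ) (η : R) (i : ℕ) :
    D.stt q η (i + 1) = D.stt (D.N q (η 0)) (fun j => η (j + 1)) i := by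
  induction i with
  | zero => rfl
  | succ i ih =>
    rw [Data.stt, ih]
    rfl

theorem act_pre (D : Data) (s : Fin D.n) (η : R) (k : ℕ) :
    (autD D).act s (pre η k) = pre (D.sP s η) k := by
  induction k generalizing s η with
  | zero => rfl
  | succ k ih =>
    have e1 : pre η (k + 1) = η 0 :: pre (fun j => η (j + 1)) k := by
      unfold pre
      rw [List.ofFn_succ]
      rfl
    have e2 : pre (D.sP s η) (k + 1) = D.sP s η 0 :: pre (fun j => D.sP s η (j + 1)) k := by
      unfold pre
      rw [List.ofFn_succ]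
      rfl
    rw [e1, e2, Automaton.act, ih]
    congr 1
    unfold pre
    congr 1
    funext i
    have h1 := stt_shift D s η i
    change D.oP (D.stt (D.N s (η 0)) (fun j => η (j + 1)) i) (η (i + 1)) =
      D.oP (D.stt s η (i + 1)) (η (i + 1))
    rw [h1]

theorem comp_state (D : Data) (s : Fin D.n) : Comp ((autD D).perm s) (D.sP s) :=
  fun η k => act_pre D s η k

theorem is_unique (D : Data) {q : ℕ} (hq : q < D.n) {σ : Perm R} (h : D.Is q σ) : σ = D.sP q := by
  ext η : 1
  funext i
  apply Fin.ext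
  rw [h η i, D.is_sP hq η i]

theorem exists_ray (D : Data) {g : Perm (List (Fin 18))} (hg : g ∈ (autD D).group) :
    ∃ h ∈ Cl D, Comp g h := by
  induction hg using Subgroup.closure_induction with
  | mem g hg =>
    obtain ⟨s, hs⟩ := hg
    refine ⟨D.sP s, Subgroup.subset_closure ⟨s, s.2, D.is_sP s.2⟩, ?_⟩
    intro η k
    rw [hs, act_pre]
  | one => exact ⟨1, one_mem _, Comp.one⟩
  | mul g g' _ _ ih1 ih2 =>
    obtain ⟨h, hh, h1⟩ := ih1
    obtain ⟨h', hh', h2⟩ := ih2
    exact ⟨h * h', mul_mem hh hh', h1.mul h2⟩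
  | inv g _ ih =>
    obtain ⟨h, hh, h1⟩ := ih
    exact ⟨h⁻¹, inv_mem hh, h1.inv⟩

theorem exists_word (D : Data) {h : Perm R} (hh : h ∈ Cl D) :
    ∃ g ∈ (autD D).group, Comp g h := by
  unfold Cl at hh
  induction hh using Subgroup.closure_induction with
  | mem σ hσ =>
    obtain ⟨q, hq, hσ⟩ := hσ
    rw [is_unique D hq hσ]
    exact ⟨(autD D).perm ⟨q, hq⟩, (autD D).perm_mem _, comp_state D ⟨q, hq⟩⟩
  | one => exact ⟨1, one_mem _, Comp.one⟩
  | mul g g' _ _ ih1 ih2 =>
    obtain ⟨h, hh, h1⟩ := ih1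
    obtain ⟨h', hh', h2⟩ := ih2
    exact ⟨h * h', mul_mem hh hh', h1.mul h2⟩
  | inv g _ ih =>
    obtain ⟨h, hh, h1⟩ := ih
    exact ⟨h⁻¹, inv_mem hh, h1.inv⟩

theorem group_le {D D' : Data} (h : Cl D ≤ Cl D') : (autD D).group ≤ (autD D').group := by
  intro g hg
  obtain ⟨r, hr, h1⟩ := exists_ray D hg
  obtain ⟨g', hg', h2⟩ := exists_word D' (h hr)
  rwa [h1.left h2]

theorem group_eq {D D' : Data} (h : Cl D = Cl D') : (autD D).group = (autD D').group :=
  le_antisymm (group_le h.le) (group_le h.ge)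

theorem range_map {α : Type} (n : ℕ) (f : ℕ → α) :
    List.ofFn (fun i : Fin n => f i) = (List.range n).map f := by
  rw [List.ofFn_eq_map, ← List.map_coe_finRange_eq_range, List.map_map]
  rfl

theorem table_autD (D : Data) : (autD D).table = D.T := by
  unfold Automaton.table Data.T table
  have e : ∀ s : Fin D.n, (List.ofFn fun x : Fin 18 =>
      (((autD D).next s x : ℕ), ((autD D).out s x : ℕ))) =
      (fun s => (List.range 18).map fun x => (nx D.K D.i0 D.mt s x, ot D.K D.ig D.mt s x)) (s : ℕ) := by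
    intro s
    simp only
    rw [← range_map]
    congr 1
    funext x
    refine Prod.ext rfl ?_
    exact D.oP_apply s.2 x
  simp only [e]
  exact range_map D.n
    (fun s => (List.range 18).map fun x => (nx D.K D.i0 D.mt s x, ot D.K D.ig D.mt s x))

end Pool.Agent.Y85.IsoP
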